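import Pool.Agent.J6H64.KU.Ev7

/-!
Kusner's question has a negative answer, also for clusters with connected cells.

The cluster has 51 bounded cells, all of them connected: in suitable coordinates (a linear cut of a
cone, i.e. a Möbius image of a highly symmetric cluster) it consists of a layer of columns which
tile a sphere, an outer region above and an inner region below the layer, and cells which close it
up. The unstable deformation moves one column `P` along its axis (function `⟪x, ν⟫` on all faces of
`P`), which is the first step of buckling of a compressed layer; the volume which is pushed through
the two ends of the column is given back through the interfaces of the two regions with the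
exterior.
-/

set_option autoImplicit false

namespace Pool.Agent.Results.MP_5bdae7_gt.ConnectedUnstableCluster

open Pool.Agent.J6H64.KU

/-- There is a cluster of connected cells in `ℝ³` with spherical and planar interfaces which meet
according to Plateau's laws, whose curvatures are balanced by pressures, and which is not stable:
for some smooth compactly supported vector field `X` on `ℝ³` with normal components `f`, which
changes the volume of no bounded cell to first order, the second variation of area (the index form)
is negative. -/
theorem result : ∃ (ι : Type) (_ : Fintype ι) (Ω : ι → Set E3), IsCluster Ω ∧ Plateau Ω ∧
    ∃ (D : RoundData Ω) (X : E3 → E3) (f : Option ι → Option ι → E3 → ℝ),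
      ContDiff ℝ (⊤ : ℕ∞) X ∧ HasCompactSupport X ∧ D.IsNormalPart X f ∧
      (∀ i, flux Ω f (some i) = 0) ∧ D.index f < 0 :=
  unstable

end Pool.Agent.Results.MP_5bdae7_gt.ConnectedUnstableCluster
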