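import Pool.Agent.J6H68.Kusner.Laws
import Pool.Agent.J6H68.Kusner.Deform

/-!
Kusner's question has a negative answer: a cluster in Euclidean three-space with spherical
interfaces that obeys Plateau's laws and the Young-Laplace law need not be stable.

The cluster has two cells. The first cell consists of a ball of radius `2` and, far away from it, a
ball of radius `3`; the second cell is the part of the concentric ball of radius `6` outside the
ball of radius `3`. The three interfaces are the round spheres of radii `2`, `3`, `6`, and
`1 / 2 = 1 / 3 + 1 / 6` balances the pressures. Moving volume from the small ball to the inner ball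
while enlarging the ball of radius `6` keeps both volumes and has negative second variation.
-/

namespace Pool.Agent.Results.MP_5bdae7_gt.UnstableSphericalCluster

open Pool.Agent.J6H68.Kusner

/-- There is a cluster with two cells in Euclidean three-space with spherical interfaces, obeying
Plateau's laws and the Young-Laplace law, that is not stable: along some smooth volume-preserving
family of deformations the first derivative of the total interface area vanishes and the second
derivative is negative. -/
theorem result : ∃ Ω : Cluster 2,
    Ω.SphericalInterfaces ∧ Ω.PlateauLaws ∧ Ω.YoungLaplace ∧ ¬ Ω.Stable ∧
    ∃ φ : ℝ → E3 → E3, IsDeformation φ ∧ Ω.PreservesVolumes φ ∧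
      deriv (fun t => (Ω.areaUnder (φ t)).toReal) 0 = 0 ∧
      iteratedDeriv 2 (fun t => (Ω.areaUnder (φ t)).toReal) 0 < 0 :=
  ⟨cluster, sphericalInterfaces, plateauLaws, youngLaplace, not_stable, exists_unstable⟩

end Pool.Agent.Results.MP_5bdae7_gt.UnstableSphericalCluster
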